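import Pool.Agent.helper82.CH.SpecE
import Pool.Agent.helper13.LD.E3

/-!
# Project CH (MP_2e0e07_nt), row LLM: Landau's local lemma with all derivatives
-/

set_option autoImplicit false

open Complex

namespace Pool.Agent.CHE

open Metric Filter Topology
open Pool.Agent.helper6.LD (factor h13_count h13_exists_log h13_iter_inv)

/-- A list with prescribed multiplicities. -/
theorem LLM_list (S : Finset ℂ) (m : ℂ → ℕ) : ∃ ρ : Fin (∑ a ∈ S, m a) → ℂ, (∀ i, ρ i ∈ S) ∧
    ∀ (A : Type) [AddCommMonoid A] (F : ℂ → A), ∑ i, F (ρ i) = ∑ a ∈ S, m a • F a := by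
  classical
  have hcard : Fintype.card (Σ a : S, Fin (m a)) = ∑ a ∈ S, m a := by
    rw [Fintype.card_sigma]
    simp only [Fintype.card_fin]
    exact Finset.sum_coe_sort S m
  let e : (Σ a : S, Fin (m a)) ≃ Fin (∑ a ∈ S, m a) := Fintype.equivFinOfCardEq hcard
  refine ⟨fun i => ((e.symm i).1 : ℂ), fun i => (e.symm i).1.2, fun A _ F => ?_⟩
  have h1 : ∑ i, F ((e.symm i).1 : ℂ) = ∑ t : (Σ a : S, Fin (m a)), F (t.1 : ℂ) :=
    Equiv.sum_comp e.symm (fun t : (Σ a : S, Fin (m a)) => F (t.1 : ℂ))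
  rw [h1, Fintype.sum_sigma]
  have h2 : ∀ a : S, ∑ _k : Fin (m a), F (a : ℂ) = m a • F (a : ℂ) := by
    intro a
    rw [Finset.sum_const, Finset.card_univ, Fintype.card_fin]
  simp only [h2]
  exact Finset.sum_coe_sort S (fun a => m a • F a)

theorem LLM_card (S : Finset ℂ) (m : ℂ → ℕ) {N : ℕ} (ρ : Fin N → ℂ)
    (h : ∀ (A : Type) [AddCommMonoid A] (F : ℂ → A), ∑ i, F (ρ i) = ∑ a ∈ S, m a • F a) (a : ℂ) :
    Nat.card {i // ρ i = a} = if a ∈ S then m a else 0 := by
  classical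
  have h1 := h ℕ (fun b => if b = a then 1 else 0)
  have h2 : Nat.card {i // ρ i = a} = ∑ i, if ρ i = a then 1 else 0 := by
    rw [Nat.card_eq_fintype_card, Fintype.card_subtype, Finset.sum_boole]
    rfl
  rw [h2, h1]
  simp only [smul_eq_mul, mul_ite, mul_one, mul_zero]
  rw [Finset.sum_ite_eq']

/-- The quotient by the zeros is bounded. -/
theorem LLM_quot {f g : ℂ → ℂ} {s₀ : ℂ} {R M : ℝ} (hR : 0 < R) (S : Finset ℂ) (m : ℂ → ℕ)
    (hS : ∀ ρ ∈ S, ‖ρ - s₀‖ ≤ R / 2) (hg : AnalyticOnNhd ℂ g (closedBall s₀ R))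
    (hfg : ∀ z ∈ closedBall s₀ R, f z = (∏ ρ ∈ S, (z - ρ) ^ m ρ) * g z)
    (hb : ∀ z ∈ closedBall s₀ R, ‖f z‖ ≤ Real.exp M * ‖f s₀‖) :
    ∀ z ∈ ball s₀ R, ‖g z‖ ≤ Real.exp M * ‖g s₀‖ := by
  set N : ℕ := ∑ ρ ∈ S, m ρ with hN
  have hR2 : 0 < R / 2 := half_pos hR
  have hcb : s₀ ∈ closedBall s₀ R := mem_closedBall_self hR.le
  have hsphere : ∀ z ∈ sphere s₀ R, ‖g z‖ ≤ Real.exp M * ‖g s₀‖ := by
    intro z hz
    have hz1 : ‖z - s₀‖ = R := mem_sphere_iff_norm.mp hz
    have hz' : z ∈ closedBall s₀ R := sphere_subset_closedBall hz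
    have hPz : (R / 2) ^ N ≤ ‖∏ ρ ∈ S, (z - ρ) ^ m ρ‖ := by
      rw [hN]
      simp only [norm_prod, norm_pow]
      rw [← Finset.prod_pow_eq_pow_sum]
      refine Finset.prod_le_prod (fun _ _ => by positivity) fun ρ hρ => ?_
      refine pow_le_pow_left₀ hR2.le ?_ _
      have h1 : ‖ρ - s₀‖ ≤ R / 2 := hS ρ hρ
      have h2 : ‖z - s₀‖ ≤ ‖z - ρ‖ + ‖ρ - s₀‖ := by
        have := norm_add_le (z - ρ) (ρ - s₀)
        simpa using this
      linarith
    have hPc : ‖∏ ρ ∈ S, (s₀ - ρ) ^ m ρ‖ ≤ (R / 2) ^ N := by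
      rw [hN]
      simp only [norm_prod, norm_pow]
      rw [← Finset.prod_pow_eq_pow_sum]
      refine Finset.prod_le_prod (fun _ _ => by positivity) fun ρ hρ => ?_
      refine pow_le_pow_left₀ (norm_nonneg _) ?_ _
      rw [norm_sub_rev]
      exact hS ρ hρ
    have h1 := hb z hz'
    rw [hfg z hz', hfg s₀ hcb, norm_mul, norm_mul] at h1
    have hdN : 0 < (R / 2) ^ N := by positivity
    have h2 : (R / 2) ^ N * ‖g z‖ ≤ (R / 2) ^ N * (Real.exp M * ‖g s₀‖) := by
      calc (R / 2) ^ N * ‖g z‖ ≤ ‖∏ ρ ∈ S, (z - ρ) ^ m ρ‖ * ‖g z‖ :=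
            mul_le_mul_of_nonneg_right hPz (norm_nonneg _)
        _ ≤ Real.exp M * (‖∏ ρ ∈ S, (s₀ - ρ) ^ m ρ‖ * ‖g s₀‖) := h1
        _ ≤ Real.exp M * ((R / 2) ^ N * ‖g s₀‖) :=
            mul_le_mul_of_nonneg_left (mul_le_mul_of_nonneg_right hPc (norm_nonneg _)) (Real.exp_nonneg _)
        _ = (R / 2) ^ N * (Real.exp M * ‖g s₀‖) := by ring
    exact le_of_mul_le_mul_left h2 hdN
  have hgd : DiffContOnCl ℂ g (ball s₀ R) := by
    refine DifferentiableOn.diffContOnCl ?_
    rw [closure_ball _ hR.ne']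
    exact hg.differentiableOn
  intro z hz
  refine Complex.norm_le_of_forall_mem_frontier_norm_le isBounded_ball hgd ?_ ?_
  · intro w hw
    rw [frontier_ball _ hR.ne'] at hw
    exact hsphere w hw
  · exact subset_closure hz

/-- The derivatives of the logarithmic derivative of a function without zeros in the disc of radius `R / 2`. -/
theorem LLM_log {g : ℂ → ℂ} {s₀ : ℂ} {R M : ℝ} (hR : 0 < R) (hM : 0 ≤ M) (hg : AnalyticOnNhd ℂ g (ball s₀ (R / 2)))
    (h0 : ∀ z ∈ ball s₀ (R / 2), g z ≠ 0) (hb : ∀ z ∈ ball s₀ (R / 2), ‖g z‖ ≤ Real.exp M * ‖g s₀‖)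
    (s : ℂ) (hs : ‖s - s₀‖ ≤ R / 4) (j : ℕ) :
    ‖iteratedDeriv j (logDeriv g) s / (j.factorial : ℂ)‖ ≤ 6 * M * (j + 1) * (8 / R) ^ (j + 1) := by
  have hR2 : 0 < R / 2 := half_pos hR
  have hcb : s₀ ∈ ball s₀ (R / 2) := mem_ball_self hR2
  obtain ⟨h, hhc, hh, hge⟩ := h13_exists_log hR2 hg h0
  have hdh : DifferentiableOn ℂ h (ball s₀ (R / 2)) :=
    fun z hz => (hh z hz).differentiableAt.differentiableWithinAt
  have hre : ∀ z ∈ ball s₀ (R / 2), (h z).re ≤ M := by
    intro z hz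
    have h1 := hb z hz
    rw [hge z hz, norm_mul, Complex.norm_exp, mul_comm (Real.exp M)] at h1
    have h2 : 0 < ‖g s₀‖ := norm_pos_iff.mpr (h0 s₀ hcb)
    exact Real.exp_le_exp.mp (le_of_mul_le_mul_left h1 h2)
  have key : ∀ B : ℝ, M < B → ‖iteratedDeriv j (logDeriv g) s / (j.factorial : ℂ)‖ ≤ 6 * B * (j + 1) * (8 / R) ^ (j + 1) := by
    intro B hMB
    have hB : 0 < B := by linarith
    have hcirc : ∀ z : ℂ, ‖z - s₀‖ ≤ 3 * R / 8 → ‖h z‖ ≤ 6 * B := by
      intro z hz'
      have hshift : DifferentiableOn ℂ (fun w => h (s₀ + w)) (ball 0 (R / 2)) := by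
        intro w hw
        have : s₀ + w ∈ ball s₀ (R / 2) := by simpa [mem_ball_iff_norm] using hw
        exact ((hh _ this).comp_const_add s₀ w).differentiableAt.differentiableWithinAt
      have hmap : Set.MapsTo (fun w => h (s₀ + w)) (ball 0 (R / 2)) {z | z.re ≤ B} := by
        intro w hw
        have : s₀ + w ∈ ball s₀ (R / 2) := by simpa [mem_ball_iff_norm] using hw
        exact (hre _ this).trans hMB.le
      have hw : z - s₀ ∈ ball (0 : ℂ) (R / 2) := by
        rw [mem_ball_zero_iff]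
        linarith
      have h1 := borelCaratheodory_zero hB hshift hmap hR2 hw (by simp [hhc])
      simp only [add_sub_cancel] at h1
      refine h1.trans ?_
      have hd : 0 < R / 2 - ‖z - s₀‖ := by linarith
      rw [div_le_iff₀ hd]
      nlinarith [norm_nonneg (z - s₀)]
    have hR8 : 0 < R / 8 := by linarith
    have hsub : closedBall s (R / 8) ⊆ ball s₀ (R / 2) := by
      intro z hz
      rw [mem_closedBall_iff_norm] at hz
      rw [mem_ball_iff_norm]
      have h2 : ‖z - s₀‖ ≤ ‖z - s‖ + ‖s - s₀‖ := by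
        have := norm_add_le (z - s) (s - s₀)
        simpa using this
      linarith
    have hcl : DiffContOnCl ℂ h (ball s (R / 8)) := by
      refine DifferentiableOn.diffContOnCl ?_
      rw [closure_ball _ hR8.ne']
      exact hdh.mono hsub
    have hcauchy := norm_iteratedDeriv_le_of_forall_mem_sphere_norm_le (j + 1) hR8 hcl (C := 6 * B) (fun z hz => by
      refine hcirc z ?_
      have hz' : ‖z - s‖ = R / 8 := mem_sphere_iff_norm.mp hz
      have h2 : ‖z - s₀‖ ≤ ‖z - s‖ + ‖s - s₀‖ := by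
        have := norm_add_le (z - s) (s - s₀)
        simpa using this
      linarith)
    have hsin : s ∈ ball s₀ (R / 2) := hsub (mem_closedBall_self hR8.le)
    have hrel : iteratedDeriv j (logDeriv g) s = iteratedDeriv (j + 1) h s := by
      rw [iteratedDeriv_succ']
      apply Filter.EventuallyEq.iteratedDeriv_eq
      filter_upwards [isOpen_ball.mem_nhds hsin] with z hz
      exact (hh z hz).deriv.symm
    rw [hrel, norm_div, Complex.norm_natCast]
    have hfpos : (0 : ℝ) < j.factorial := by exact_mod_cast Nat.factorial_pos _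
    rw [div_le_iff₀ hfpos]
    refine hcauchy.trans (le_of_eq ?_)
    rw [Nat.factorial_succ]
    push_cast
    rw [div_pow, div_pow]
    field_simp
  refine le_of_forall_pos_le_add fun ε hε => ?_
  set K : ℝ := 6 * (j + 1) * (8 / R) ^ (j + 1) with hK
  have hK0 : 0 < K := by positivity
  have h1 := key (M + ε / K) (by
    have : 0 < ε / K := by positivity
    linarith)
  refine h1.trans (le_of_eq ?_)
  have e1 : 6 * (M + ε / K) * (j + 1) * (8 / R) ^ (j + 1) = 6 * M * (j + 1) * (8 / R) ^ (j + 1) + ε / K * K := by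
    rw [hK]
    ring
  rw [e1, div_mul_cancel₀ _ hK0.ne']

theorem LLM : LLM_stmt := by
  classical
  intro f s₀ R M hf hR h0 hb
  have hM : 0 ≤ M := by
    have h := hb s₀ (by rw [sub_self, norm_zero]; exact hR.le)
    have h1 : 0 < ‖f s₀‖ := norm_pos_iff.2 h0
    have h2 : 1 * ‖f s₀‖ ≤ Real.exp M * ‖f s₀‖ := by rwa [one_mul]
    exact Real.one_le_exp_iff.1 (le_of_mul_le_mul_right h2 h1)
  have hfa : AnalyticOnNhd ℂ f (closedBall s₀ R) := fun z _ => hf.analyticAt z
  have hb' : ∀ z ∈ closedBall s₀ R, ‖f z‖ ≤ Real.exp M * ‖f s₀‖ := fun z hz =>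
    hb z (by rwa [mem_closedBall_iff_norm] at hz)
  have hR2 : 0 < R / 2 := half_pos hR
  obtain ⟨S, g, hS, hg, hfg, hgne⟩ := factor hR2 (half_lt_self hR) hfa h0
  have hcount := h13_count hR2 (half_lt_self hR) hM hfa h0 hb' S hS
  obtain ⟨ρ, hρS, hρ⟩ := LLM_list S (analyticOrderNatAt f)
  have hSn : ∀ a ∈ S, ‖a - s₀‖ ≤ R / 2 := fun a ha => by
    have := ((hS a).1 ha).1
    rwa [mem_closedBall_iff_norm] at this
  refine ⟨_, ρ, ?_, fun i => ⟨((hS _).1 (hρS i)).2, hSn _ (hρS i)⟩, ?_, ?_⟩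
  · refine hcount.trans ?_
    have h1 : R / (R / 2) = 2 := by field_simp
    rw [h1, div_le_iff₀ (Real.log_pos one_lt_two)]
    have h2 := Real.log_two_gt_d9
    nlinarith
  · intro a ha
    rw [LLM_card S (analyticOrderNatAt f) ρ hρ a]
    split_ifs with haS
    · rfl
    · have hfa0 : f a ≠ 0 := fun h => haS ((hS a).2 ⟨by rwa [mem_closedBall_iff_norm], h⟩)
      have h1 : analyticOrderAt f a = 0 := (hf.analyticAt a).analyticOrderAt_eq_zero.mpr hfa0
      simp [analyticOrderNatAt, h1]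
  · intro s hs hfs j
    have hsb : s ∈ ball s₀ (R / 2) := by
      rw [mem_ball_iff_norm]
      linarith
    have hsS : s ∉ S := fun h => hfs ((hS s).1 h).2
    have hsR : s ∈ closedBall s₀ R := by
      rw [mem_closedBall_iff_norm]
      linarith
    have hev : logDeriv f =ᶠ[𝓝 s] fun z =>
        (∑ a ∈ S, (analyticOrderNatAt f a : ℂ) * (z - a)⁻¹) + logDeriv g z := by
      have hcl : IsClosed ((S : Finset ℂ) : Set ℂ) := S.finite_toSet.isClosed
      have hc' : s ∈ ((S : Finset ℂ) : Set ℂ)ᶜ := by simpa using hsS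
      filter_upwards [hcl.isOpen_compl.mem_nhds hc', isOpen_ball.mem_nhds hsb] with z hzS hzR
      have hzS' : z ∉ S := by simpa using hzS
      have hne : ∀ a ∈ S, z - a ≠ 0 := by
        intro a ha h
        rw [sub_eq_zero] at h
        exact hzS' (h ▸ ha)
      have hzR' : z ∈ ball s₀ R := ball_subset_ball (half_le_self hR.le) hzR
      have hz' : z ∈ closedBall s₀ R := ball_subset_closedBall hzR'
      have hfe : f =ᶠ[𝓝 z] fun w => (∏ a ∈ S, (w - a) ^ analyticOrderNatAt f a) * g w := by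
        filter_upwards [isOpen_ball.mem_nhds hzR'] with w hw
        exact hfg w (ball_subset_closedBall hw)
      have hPz : (∏ a ∈ S, (z - a) ^ analyticOrderNatAt f a) ≠ 0 :=
        Finset.prod_ne_zero_iff.mpr fun a ha => pow_ne_zero _ (hne a ha)
      have hPan : DifferentiableAt ℂ (fun w => ∏ a ∈ S, (w - a) ^ analyticOrderNatAt f a) z :=
        (Finset.analyticAt_fun_prod S (fun a _ => (analyticAt_id.sub analyticAt_const).pow _)).differentiableAt
      have hgz : g z ≠ 0 := hgne z (ball_subset_closedBall hzR)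
      have h1 : logDeriv f z = logDeriv (fun w => (∏ a ∈ S, (w - a) ^ analyticOrderNatAt f a) * g w) z := by
        rw [logDeriv_apply, logDeriv_apply, hfe.deriv_eq, hfe.self_of_nhds]
      rw [h1, logDeriv_mul z hPz hgz hPan (hg z hz').differentiableAt]
      congr 1
      have h2 : logDeriv (fun w => ∏ a ∈ S, (w - a) ^ analyticOrderNatAt f a) z =
          ∑ a ∈ S, logDeriv (fun w => (w - a) ^ analyticOrderNatAt f a) z :=
        logDeriv_prod (𝕜 := ℂ) (𝕜' := ℂ) (s := S) (f := fun a w => (w - a) ^ analyticOrderNatAt f a) (x := z)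
          (fun a ha => pow_ne_zero _ (hne a ha)) (fun a _ => by fun_prop)
      rw [h2]
      refine Finset.sum_congr rfl fun a ha => ?_
      have h3 : HasDerivAt (fun w : ℂ => (w - a) ^ analyticOrderNatAt f a)
          ((analyticOrderNatAt f a : ℂ) * (z - a) ^ (analyticOrderNatAt f a - 1) * 1) z :=
        ((hasDerivAt_id z).sub_const a).pow _
      rw [logDeriv_apply, h3.deriv]
      rcases Nat.eq_zero_or_pos (analyticOrderNatAt f a) with h4 | h4
      · simp [h4]
      · obtain ⟨m, hm⟩ : ∃ m, analyticOrderNatAt f a = m + 1 := ⟨_, (Nat.sub_add_cancel h4).symm⟩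
        rw [hm, Nat.add_sub_cancel, mul_one, pow_succ]
        have := hne a ha
        field_simp
    have hsne : ∀ a ∈ S, s - a ≠ 0 := by
      intro a ha h
      rw [sub_eq_zero] at h
      exact hsS (h ▸ ha)
    have hcd1 : ∀ a ∈ S, ContDiffAt ℂ (j : ℕ) (fun z => (analyticOrderNatAt f a : ℂ) * (z - a)⁻¹) s := by
      intro a ha
      have : AnalyticAt ℂ (fun z => (analyticOrderNatAt f a : ℂ) * (z - a)⁻¹) s :=
        analyticAt_const.mul ((analyticAt_id.sub analyticAt_const).inv (hsne a ha))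
      exact this.contDiffAt
    have hgs : g s ≠ 0 := hgne s (ball_subset_closedBall hsb)
    have hgan : AnalyticAt ℂ (logDeriv g) s := (hg s hsR).deriv.div (hg s hsR) hgs
    have hinv : ∀ a ∈ S, iteratedDeriv j (fun z => (z - a)⁻¹) s / (j.factorial : ℂ) = (-1) ^ j * (1 / (s - a) ^ (j + 1)) := by
      intro a ha
      have h1 := h13_iter_inv (j + 1) (by omega) s a
      rw [Nat.add_sub_cancel] at h1
      rw [h1]
      have hsw : (a - s) ^ (j + 1) = (-1) ^ (j + 1) * (s - a) ^ (j + 1) := by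
        rw [← mul_pow]
        congr 1
        ring
      have h2 : ((-1 : ℂ) ^ (j + 1))⁻¹ = (-1) ^ (j + 1) := by
        rw [← inv_pow]
        norm_num
      rw [hsw, mul_inv, h2, pow_succ (-1 : ℂ) j, one_div]
      ring
    have hiter : iteratedDeriv j (logDeriv f) s / (j.factorial : ℂ) =
        (-1) ^ j * (∑ a ∈ S, (analyticOrderNatAt f a : ℂ) * (1 / (s - a) ^ (j + 1))) +
          iteratedDeriv j (logDeriv g) s / (j.factorial : ℂ) := by
      rw [hev.iteratedDeriv_eq]
      have h1 : (fun z => (∑ a ∈ S, (analyticOrderNatAt f a : ℂ) * (z - a)⁻¹) + logDeriv g z) =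
          (fun z => ∑ a ∈ S, (analyticOrderNatAt f a : ℂ) * (z - a)⁻¹) + logDeriv g := rfl
      rw [h1, iteratedDeriv_add (ContDiffAt.sum hcd1) hgan.contDiffAt, add_div]
      congr 1
      rw [iteratedDeriv_fun_sum hcd1, Finset.sum_div, Finset.mul_sum]
      refine Finset.sum_congr rfl fun a ha => ?_
      rw [iteratedDeriv_const_mul_field, mul_div_assoc, hinv a ha]
      ring
    have hsum : ∑ i, 1 / (s - ρ i) ^ (j + 1) = ∑ a ∈ S, (analyticOrderNatAt f a : ℂ) * (1 / (s - a) ^ (j + 1)) := by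
      rw [hρ ℂ (fun a => 1 / (s - a) ^ (j + 1))]
      refine Finset.sum_congr rfl fun a _ => ?_
      rw [nsmul_eq_mul]
    have hsq : ((-1 : ℂ) ^ j) * (-1) ^ j = 1 := by
      rw [← mul_pow]
      norm_num
    have hfin : (-1) ^ j / (j.factorial : ℂ) * iteratedDeriv j (fun w => deriv f w / f w) s - ∑ i, 1 / (s - ρ i) ^ (j + 1) =
        (-1) ^ j * (iteratedDeriv j (logDeriv g) s / (j.factorial : ℂ)) := by
      have h1 : (fun w => deriv f w / f w) = logDeriv f := rfl
      have h2 : (-1) ^ j / (j.factorial : ℂ) * iteratedDeriv j (logDeriv f) s =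
          (-1) ^ j * (iteratedDeriv j (logDeriv f) s / (j.factorial : ℂ)) := by ring
      rw [h1, h2, hiter, hsum, mul_add, ← mul_assoc, hsq]
      ring
    rw [hfin, norm_mul, norm_pow, norm_neg, norm_one, one_pow, one_mul]
    have hball : ∀ z ∈ ball s₀ (R / 2), z ∈ ball s₀ R := fun z hz => ball_subset_ball (half_le_self hR.le) hz
    exact LLM_log hR hM (hg.mono fun z hz => ball_subset_closedBall (hball z hz))
      (fun z hz => hgne z (ball_subset_closedBall hz))
      (fun z hz => LLM_quot hR S (analyticOrderNatAt f) hSn hg hfg hb' z (hball z hz)) s hs j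

end Pool.Agent.CHE
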