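import Pool.Agent.helper82.CH.SpecN

/-!
# Project CH (MP_2e0e07_nt), row SYS: the system of L-functions
-/

set_option autoImplicit false

open NumberField Complex Pool.Agent.UN

namespace Pool.Agent.CH

open Classical in
theorem SYS_ser (T : Prop) (L Z Ef : ℂ → ℂ) (hd : Differentiable ℂ Ef)
    (hE : ∀ s : ℂ, 1 < s.re → Ef s = (if T then s - 1 else 1) * L s)
    (hL : ∀ s : ℂ, 1 < s.re → L s ≠ 0) (hZ : ∀ s : ℂ, 1 < s.re → Z s * L s = - deriv L s) (s : ℂ) (hs : 1 < s.re) :
    Z s = (if T then (1 : ℂ) else 0) / (s - 1) - deriv Ef s / Ef s := by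
  have hs1 : s - 1 ≠ 0 := by
    intro h
    have : s.re = 1 := by
      have := congrArg Complex.re h
      simp at this
      linarith
    linarith
  have hopen : {w : ℂ | 1 < w.re} ∈ nhds s := (isOpen_lt continuous_const Complex.continuous_re).mem_nhds hs
  by_cases hT : T
  · simp only [hT, if_true] at hE ⊢
    have hev : L =ᶠ[nhds s] fun w => Ef w / (w - 1) := by
      filter_upwards [hopen] with w hw
      have hw1 : w - 1 ≠ 0 := by
        intro h
        have h2 : w.re = 1 := by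
          have := congrArg Complex.re h
          simp at this
          linarith
        have h3 : (1 : ℝ) < w.re := hw
        linarith
      rw [hE w hw]
      field_simp
    have hdL : deriv L s = (deriv Ef s * (s - 1) - Ef s * 1) / (s - 1) ^ 2 := by
      rw [hev.deriv_eq]
      exact (((hd s).hasDerivAt).div ((hasDerivAt_id s).sub_const 1) hs1).deriv
    have h1 := hZ s hs
    have hL1 := hL s hs
    have hE1 := hE s hs
    have h2 : Z s = - deriv L s / L s := by
      rw [← h1]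
      field_simp
    rw [h2, hdL, hE1]
    field_simp
    ring
  · simp only [hT, if_false] at hE ⊢
    have hev : L =ᶠ[nhds s] Ef := by
      filter_upwards [hopen] with w hw
      rw [hE w hw, one_mul]
    have h1 := hZ s hs
    have hL1 := hL s hs
    have h2 : Z s = - deriv L s / L s := by
      rw [← h1]
      field_simp
    rw [h2, hev.deriv_eq, hE s hs]
    ring

theorem SYS_sum {Y : Type} [Fintype Y] {α : Type} [DecidableEq α] (f : Y → α) (hf : Function.Injective f) (a : α) (S : ℝ)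
    (hS : 0 ≤ S) : ∑ y, (if a = f y then S else 0) ≤ S := by
  by_cases h : ∃ y, a = f y
  · obtain ⟨y₀, hy₀⟩ := h
    rw [Finset.sum_eq_single y₀]
    · rw [if_pos hy₀]
    · intro b _ hb
      rw [if_neg]
      intro h2
      exact hb (hf (h2.symm.trans hy₀))
    · intro h2
      exact absurd (Finset.mem_univ _) h2
  · rw [Finset.sum_eq_zero]
    · exact hS
    · intro y _
      rw [if_neg]
      exact fun h2 => h ⟨y, h2⟩

theorem SYS_Lam {F : Type} [Field F] [NumberField F] (a : Ideal (𝓞 F)) : 0 ≤ Lam a := by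
  unfold Lam
  split_ifs
  · exact Real.log_natCast_nonneg _
  · exact le_rfl

theorem SYS_Dc (F : Type) [Field F] [NumberField F] : 1 ≤ Dc F := by
  unfold Dc
  have h1 : (NumberField.discr F) ≠ 0 := NumberField.discr_ne_zero F
  have h2 : (1 : ℤ) ≤ |NumberField.discr F| := Int.one_le_abs h1
  have h3 : ((1 : ℤ) : ℝ) ≤ ((|NumberField.discr F| : ℤ) : ℝ) := by exact_mod_cast h2
  simpa using h3

theorem SYS_card (m : ℕ) (hm : 0 < m) (H : Subgroup (ZMod m)ˣ) [Fintype H] : Fintype.card H ≤ m := by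
  have : NeZero m := ⟨hm.ne'⟩
  rw [← Nat.card_eq_fintype_card]
  calc Nat.card H ≤ Nat.card (ZMod m)ˣ := Subgroup.card_le_card_group H
    _ = m.totient := by rw [Nat.card_eq_fintype_card, ZMod.card_units_eq_totient]
    _ ≤ m := Nat.totient_le m

theorem SYS (hEPS : EPS_stmt) (hNCM : NCM_stmt) (hCID : CID_stmt) (hCSM : CSM_stmt) (hEXL : EXL_stmt) (hZBD : ZBD_stmt)
    (hELW : ELW_stmt) (hABX : ABX_stmt) (hONE : CHE.ONE_stmt) : SYS_stmt := by
  classical
  intro n m hm
  obtain ⟨C₁, hC₁, h1⟩ := hEPS n m hm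
  obtain ⟨C₂, hC₂, h2⟩ := hELW n
  have hm1 : (1 : ℝ) ≤ m := by exact_mod_cast hm
  refine ⟨1 + n + C₂ + 1000 * m * C₁, ?_, ?_⟩
  · have : (0 : ℝ) ≤ n := Nat.cast_nonneg n
    have : (0 : ℝ) ≤ 1000 * m * C₁ := by positivity
    linarith
  intro F M _ _ _ _ _ z H _ l hF hz hadj hH hl
  set C : ℝ := 1 + n + C₂ + 1000 * m * C₁ with hC
  have hn0 : (0 : ℝ) ≤ n := Nat.cast_nonneg n
  have hmC : C₁ ≤ 1000 * m * C₁ := by
    have : (1 : ℝ) * C₁ ≤ 1000 * m * C₁ := by
      apply mul_le_mul_of_nonneg_right _ (by linarith)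
      linarith
    linarith
  have hCn : (n : ℝ) ≤ C := by
    have : (0 : ℝ) ≤ 1000 * m * C₁ := by positivity
    rw [hC]; linarith
  have hCC1 : C₁ ≤ C := by rw [hC]; linarith
  have hCC2 : C₂ ≤ C := by
    have : (0 : ℝ) ≤ 1000 * m * C₁ := by positivity
    rw [hC]; linarith
  have hCC3 : 1000 * m * C₁ ≤ C := by rw [hC]; linarith
  have hC1 : 1 ≤ C := by linarith
  have hD := SYS_Dc F
  have hlogD : 0 ≤ Real.log (Dc F) := Real.log_nonneg hD
  have hl1 : 1 ≤ l := by linarith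
  -- the characters
  choose ψ hψ using fun χ : H →* ℂˣ => hABX F M m z H hm hz hadj hH χ
  choose E hE using fun χ : H →* ℂˣ => h1 F (ψ χ) hF
  have hCMt : CM (tc F) := (hNCM F m (ψ 1)).2.2.2.1
  have hzt : ∀ k : ℕ, zz (tc F) k = ((∑ a ∈ idl F k, Lam a : ℝ) : ℂ) := (hNCM F m (ψ 1)).2.2.2.2
  have hCM : ∀ χ, CM (nch F (ψ χ)) := fun χ => (hNCM F m (ψ χ)).1
  have hak : ∀ χ, CHE.ak (bb F H) χ = zz (nch F (ψ χ)) := fun χ => funext (hψ χ).1
  have hexl : ∀ (χ : H →* ℂˣ) (s : ℂ), 1 < s.re →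
      Complex.exp (LSeries (lg (nch F (ψ χ))) s) = LSeries (cc (nch F (ψ χ))) s ∧
      LSeries (zz (nch F (ψ χ))) s * LSeries (cc (nch F (ψ χ))) s = - deriv (LSeries (cc (nch F (ψ χ)))) s := by
    intro χ s hs
    have hcc1 : cc (nch F (ψ χ)) 1 = 1 := by
      have h3 := (hNCM F m (ψ χ)).2.1 1 one_ne_zero
      rw [h3]
      have h4 : nd F 1 = 1 := by
        unfold nd
        rw [Nat.card_eq_one_iff_unique]
        refine ⟨⟨?_⟩, ⟨⟨⊤, Ideal.absNorm_top⟩⟩⟩
        rintro ⟨a, ha⟩ ⟨b, hb⟩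
        rw [Ideal.absNorm_eq_one_iff] at ha hb
        simp [ha, hb]
      rw [h4]
      simp
    exact hEXL (cc (nch F (ψ χ))) (zz (nch F (ψ χ))) hcc1
      (fun w hw => ⟨(hCSM F _ (hCM χ) w hw).1, (hCSM F _ (hCM χ) w hw).2.1⟩)
      (fun k hk => hCID F _ (hCM χ) k hk) (fun w hw => (hCSM F _ (hCM χ) w hw).2.2) s hs
  have hne : ∀ (χ : H →* ℂˣ) (s : ℂ), 1 < s.re → LSeries (cc (nch F (ψ χ))) s ≠ 0 := by
    intro χ s hs
    rw [← (hexl χ s hs).1]
    exact Complex.exp_ne_zero _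
  have hs1 : ∀ s : ℂ, 1 < s.re → s - 1 ≠ 0 := by
    intro s hs h
    have : s.re = 1 := by
      have := congrArg Complex.re h
      simp at this
      linarith
    linarith
  have hbb : ∀ (y : H) (k : ℕ), 0 ≤ bb F H y k := by
    intro y k
    unfold bb
    split_ifs
    · exact Finset.sum_nonneg fun a _ => SYS_Lam a
    · exact le_rfl
  refine ⟨E, ⟨hC1, hl1, hbb, ?_, fun χ => (hE χ).1, ?_, ?_, ?_, ?_, ?_⟩⟩
  · -- bd
    intro k
    have hS : 0 ≤ ∑ a ∈ idl F k, Lam a := Finset.sum_nonneg fun a _ => SYS_Lam a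
    have h3 : ∑ y : H, bb F H y k ≤ ∑ a ∈ idl F k, Lam a := by
      unfold bb
      exact SYS_sum (fun y : H => ((y : (ZMod m)ˣ) : ZMod m))
        (fun a b hab => Subtype.ext (Units.ext hab)) ((k : ℕ) : ZMod m) _ hS
    have h4 := (hZBD F (tc F) hCMt).1 k
    rw [hzt k, Complex.norm_real, Real.norm_of_nonneg hS] at h4
    have h5 : (Module.finrank ℚ F : ℝ) ≤ C := by
      have : (Module.finrank ℚ F : ℝ) ≤ n := by exact_mod_cast hF
      linarith
    have h6 : 0 ≤ ArithmeticFunction.vonMangoldt k := ArithmeticFunction.vonMangoldt_nonneg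
    calc ∑ y : H, bb F H y k ≤ ∑ a ∈ idl F k, Lam a := h3
      _ ≤ Module.finrank ℚ F * ArithmeticFunction.vonMangoldt k := h4
      _ ≤ C * CHE.VM k := mul_le_mul_of_nonneg_right h5 h6
  · -- ne
    intro χ s hs
    rw [(hE χ).2.1 s hs]
    apply mul_ne_zero _ (hne χ s hs)
    split_ifs
    · exact hs1 s hs
    · exact one_ne_zero
  · -- ser
    intro χ s hs
    rw [hak χ]
    have h3 := SYS_ser (Triv F (ψ χ)) (LSeries (cc (nch F (ψ χ)))) (LSeries (zz (nch F (ψ χ)))) (E χ) (hE χ).1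
      (fun w hw => (hE χ).2.1 w hw) (hne χ) (fun w hw => (hexl χ w hw).2) s hs
    rw [h3]
    unfold CHE.dl
    by_cases hχ : χ = 1
    · rw [if_pos ((hψ χ).2.mpr hχ), if_pos hχ]
    · rw [if_neg (fun h => hχ ((hψ χ).2.mp h)), if_neg hχ]
  · -- up
    intro χ s
    refine ((hE χ).2.2.1 s).trans (Real.exp_le_exp.mpr ?_)
    have hls : 0 ≤ Real.log (2 + ‖s‖) := Real.log_nonneg (by linarith [norm_nonneg s])
    have h3 : C₁ * (1 + ‖s‖) ≤ C * (1 + ‖s‖) := mul_le_mul_of_nonneg_right hCC1 (by linarith [norm_nonneg s])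
    have h4 : 1 + Real.log (Dc F) + Real.log (2 + ‖s‖) ≤ l + Real.log (2 + ‖s‖) := by linarith
    have h5 : 0 ≤ C₁ * (1 + ‖s‖) := by
      have := norm_nonneg s
      positivity
    exact mul_le_mul h3 h4 (by linarith) (by linarith)
  · -- low
    intro χ t
    have hre : (1 : ℝ) < (2 + t * I : ℂ).re := by simp
    rw [(hE χ).2.1 _ hre, norm_mul]
    have h3 := h2 F (nch F (ψ χ)) hF (hCM χ) t
    have h4 : (1 : ℝ) ≤ ‖(if Triv F (ψ χ) then (2 + t * I : ℂ) - 1 else 1)‖ := by
      split_ifs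
      · have h5 := Complex.abs_re_le_norm ((2 + t * I : ℂ) - 1)
        have h6 : ((2 + t * I : ℂ) - 1).re = 1 := by
          simp
          norm_num
        rw [h6] at h5
        simpa using h5
      · simp
    calc Real.exp (-C) ≤ Real.exp (-C₂) := Real.exp_le_exp.mpr (by linarith)
      _ ≤ ‖LSeries (cc (nch F (ψ χ))) (2 + t * I)‖ := h3
      _ ≤ _ := le_mul_of_one_le_left (norm_nonneg _) h4
  · -- one
    have hlog9 : Real.log 9 ≤ 3 := by
      have h3 : Real.log 9 = 2 * Real.log 3 := by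
        rw [show (9 : ℝ) = 3 ^ 2 by norm_num, Real.log_pow]
        norm_num
      have h4 : Real.log 3 ≤ 1.5 := by
        rw [Real.log_le_iff_le_exp (by norm_num)]
        have h5 : (2.7182818283 : ℝ) < Real.exp 1 := Real.exp_one_gt_d9
        have h6 : Real.exp 1.5 = Real.exp 1 * Real.exp 0.5 := by
          rw [← Real.exp_add]
          norm_num
        have h7 : (1.5 : ℝ) ≤ Real.exp 0.5 := by
          have := Real.add_one_le_exp (0.5 : ℝ)
          linarith
        rw [h6]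
        nlinarith
      rw [h3]
      linarith
    have hlog90 : 0 ≤ Real.log 9 := Real.log_nonneg (by norm_num)
    have hG1 : 1 ≤ 8 * C₁ * (l + Real.log 9) := by
      have h3 : 1 ≤ l + Real.log 9 := by linarith
      nlinarith
    intro χ
    have h3 := hONE H (bb F H) E (8 * C₁ * (l + Real.log 9)) hG1 hbb (fun χ => (hE χ).1) ?_ ?_ ?_ χ
    · refine le_trans (Real.exp_le_exp.mpr ?_) h3
      have h4 : (Fintype.card H : ℝ) ≤ m := by exact_mod_cast SYS_card m hm H
      have h5 : l + Real.log 9 ≤ 4 * l := by linarith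
      have h6 : (0 : ℝ) ≤ Fintype.card H := Nat.cast_nonneg _
      have h7 : 8 * C₁ * (l + Real.log 9) ≤ 8 * C₁ * (4 * l) := mul_le_mul_of_nonneg_left h5 (by linarith)
      have h8 : 25 * (Fintype.card H : ℝ) * (8 * C₁ * (l + Real.log 9)) ≤ 25 * m * (8 * C₁ * (4 * l)) := by
        apply mul_le_mul (by linarith) h7 (by linarith) (by positivity)
      have h9 : 25 * (m : ℝ) * (8 * C₁ * (4 * l)) = (800 * m * C₁) * l := by ring
      have h10 : (800 * m * C₁) * l ≤ C * l := by
        apply mul_le_mul_of_nonneg_right _ (by linarith)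
        have : 800 * (m : ℝ) * C₁ ≤ 1000 * m * C₁ := by
          apply mul_le_mul_of_nonneg_right _ (by linarith)
          linarith
        linarith
      linarith
    · intro χ s hs
      have h4 : (fun k => CHE.ak (bb F H) χ k / (Real.log k : ℂ)) = lg (nch F (ψ χ)) := by
        funext k
        unfold lg
        rw [hak χ]
      rw [h4]
      refine ⟨(hCSM F _ (hCM χ) s hs).2.2, ?_⟩
      rw [(hexl χ s hs).1, (hE χ).2.1 s hs]
      by_cases hχ : χ = 1
      · rw [if_pos ((hψ χ).2.mpr hχ), if_pos hχ]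
      · rw [if_neg (fun h => hχ ((hψ χ).2.mp h)), if_neg hχ]
    · intro χ s hs
      refine ((hE χ).2.2.1 s).trans (Real.exp_le_exp.mpr ?_)
      have h4 : ‖s‖ ≤ 7 := by
        calc ‖s‖ = ‖(s - 2) + 2‖ := by ring_nf
          _ ≤ ‖s - 2‖ + ‖(2 : ℂ)‖ := norm_add_le _ _
          _ ≤ 5 + 2 := by
            have : ‖(2 : ℂ)‖ = 2 := by simp
            linarith
          _ = 7 := by norm_num
      have h5 : Real.log (2 + ‖s‖) ≤ Real.log 9 :=
        Real.log_le_log (by linarith [norm_nonneg s]) (by linarith)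
      have h6 : 0 ≤ Real.log (2 + ‖s‖) := Real.log_nonneg (by linarith [norm_nonneg s])
      have h7 : C₁ * (1 + ‖s‖) ≤ 8 * C₁ := by nlinarith
      exact mul_le_mul h7 (by linarith) (by linarith) (by linarith)
    · exact (hE 1).2.2.2 ((hψ 1).2.mpr rfl)

end Pool.Agent.CH
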