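import Pool.Agent.helper17.CH.SpecQ

set_option autoImplicit false

namespace Pool.Agent.CH

open Finset ArithmeticFunction MeasureTheory
open GD (kp ks)

private theorem FID_markov (S : Finset ℕ) (f : ℕ → ℝ) (T X : ℝ) (hT : 0 < T)
    (hf : ∀ n ∈ S, 0 ≤ f n) (h : ∑ n ∈ S, f n ≤ X) [DecidablePred fun n => T < f n] :
    (#(S.filter fun n => T < f n) : ℝ) ≤ X / T := by
  rw [le_div_iff₀ hT]
  calc (#(S.filter fun n => T < f n) : ℝ) * T = ∑ n ∈ S.filter (fun n => T < f n), T := by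
        rw [sum_const, nsmul_eq_mul]
    _ ≤ ∑ n ∈ S.filter (fun n => T < f n), f n :=
        sum_le_sum fun n hn => (mem_filter.1 hn).2.le
    _ ≤ ∑ n ∈ S, f n :=
        sum_le_sum_of_subset_of_nonneg (filter_subset _ _) fun n hn _ => hf n hn
    _ ≤ X := h

private theorem FID_PZ (N : ℕ) (hN : 32768 ≤ N) : PZ N (zS N) (yS N) := by
  have hN1 : (1 : ℝ) ≤ N := by exact_mod_cast (by omega : 1 ≤ N)
  have hN0 : (0 : ℝ) < N := by linarith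
  have hX1 : (1 : ℝ) ≤ 8 * (N : ℝ) ^ 3 := by
    have : (1 : ℝ) ≤ (N : ℝ) ^ 3 := one_le_pow₀ hN1
    linarith
  refine ⟨?_, ?_, ?_, ?_⟩
  · unfold zS
    calc (N : ℝ) ^ (1 / 6 : ℝ) ≤ (N : ℝ) ^ (17 / 100 : ℝ) :=
          Real.rpow_le_rpow_of_exponent_le hN1 (by norm_num)
      _ = ((N : ℝ) ^ 3) ^ (17 / 300 : ℝ) := by
          rw [← Real.rpow_natCast, ← Real.rpow_mul hN0.le]; norm_num
      _ ≤ (8 * (N : ℝ) ^ 3) ^ (17 / 300 : ℝ) := by
          apply Real.rpow_le_rpow (by positivity) _ (by norm_num)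
          nlinarith [pow_pos hN0 3]
  · exact Real.rpow_le_rpow_of_exponent_le hX1 (by norm_num)
  · unfold yS
    rw [← Real.rpow_natCast _ 4, ← Real.rpow_mul (by positivity)]
    norm_num
  · unfold yS
    have h8 : (8 : ℝ) ≤ (N : ℝ) ^ (1 / 5 : ℝ) := by
      have h : (8 : ℝ) = ((32768 : ℝ)) ^ (1 / 5 : ℝ) := by
        rw [show (32768 : ℝ) = 8 ^ (5 : ℝ) by norm_num, ← Real.rpow_mul (by norm_num)]; norm_num
      rw [h]
      exact Real.rpow_le_rpow (by norm_num) (by exact_mod_cast hN) (by norm_num)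
    calc (8 * (N : ℝ) ^ 3) ^ (1 / 4 : ℝ) ≤ ((N : ℝ) ^ (16 / 5 : ℝ)) ^ (1 / 4 : ℝ) := by
          apply Real.rpow_le_rpow (by positivity) _ (by norm_num)
          have e : (N : ℝ) ^ (16 / 5 : ℝ) = (N : ℝ) ^ (1 / 5 : ℝ) * (N : ℝ) ^ 3 := by
            rw [← Real.rpow_natCast _ 3, ← Real.rpow_add hN0]; norm_num
          rw [e]
          exact mul_le_mul_of_nonneg_right h8 (by positivity)
      _ = (N : ℝ) ^ (4 / 5 : ℝ) := by rw [← Real.rpow_mul hN0.le]; norm_num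

private theorem FID_tot (l : ℕ → ℝ) (Q : ℝ) (hl : ∀ m, l m ≠ 0 → Nat.Coprime m 30) :
    ∑ m ∈ Mo Q, l m / (Nat.totient (30 * m) : ℝ) =
      1 / 8 * ∑ m ∈ Icc 1 ⌊Q⌋₊, l m / (Nat.totient m : ℝ) := by
  rw [Mo, sum_filter, mul_sum]
  refine sum_congr rfl fun m _ => ?_
  by_cases h : Nat.Coprime m 30
  · rw [if_pos h, Nat.totient_mul h.symm]
    have h8 : Nat.totient 30 = 8 := by decide
    rw [h8]
    push_cast
    rw [div_mul_eq_div_div]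
    ring
  · have h0 : l m = 0 := by
      by_contra h0
      exact h (hl m h0)
    rw [if_neg h, h0]
    simp

private theorem FID_large (c₀ : ℝ) (hc : 0 < c₀) : ∃ N₀ : ℕ, ∀ N : ℕ, N₀ ≤ N →
    3 ≤ Real.log N ∧ Real.log 8 ≤ 3 / 4 * Real.log N ∧ 48 / c₀ ≤ Real.log N ^ 2 ∧
      Real.log N ^ 2 ≤ c₀ / 192 * (N : ℝ) ^ (1 / 8 : ℝ) := by
  have h1 : Filter.Tendsto (fun N : ℕ => Real.log (N : ℝ)) Filter.atTop Filter.atTop :=
    Real.tendsto_log_atTop.comp tendsto_natCast_atTop_atTop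
  have h2 := h1.eventually_ge_atTop 3
  have h3 := h1.eventually_ge_atTop (4 / 3 * Real.log 8)
  have h4 := h1.eventually_ge_atTop (48 / c₀)
  have h5 := (isLittleO_log_rpow_rpow_atTop (2 : ℝ) (by norm_num : (0 : ℝ) < 1 / 8)).def
    (show (0 : ℝ) < c₀ / 192 by positivity)
  have h6 := tendsto_natCast_atTop_atTop (R := ℝ) |>.eventually h5
  obtain ⟨N₀, hN₀⟩ := Filter.eventually_atTop.1 ((h2.and h3).and (h4.and h6))
  refine ⟨N₀, fun N hN => ?_⟩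
  obtain ⟨⟨a1, a2⟩, a3, a4⟩ := hN₀ N hN
  refine ⟨a1, by linarith, ?_, ?_⟩
  · nlinarith
  · rw [Real.norm_of_nonneg (Real.rpow_nonneg (by linarith) _),
      Real.norm_of_nonneg (Real.rpow_nonneg (Nat.cast_nonneg N) _)] at a4
    have e : Real.log (N : ℝ) ^ (2 : ℝ) = Real.log N ^ 2 := Real.rpow_two _
    rw [e] at a4
    exact a4

private theorem FID_core {c₀ L lg W B S₁ S₂ F₁ F₂ G δ P x : ℝ} (hc₀ : 0 < c₀) (hlg : 3 ≤ lg)
    (hL0 : 0 < L) (hL1 : L ≤ 15 / 4 * lg) (hW : 3 * x ^ 2 ≤ W) (hB : B ≤ 4 / 25 * x ^ 2 / lg)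
    (hB0 : 0 ≤ B) (hS₂ : 0 ≤ S₂) (hS : c₀ / lg ≤ S₁ - 1 / 10 * S₂)
    (hF₁ : |F₁ - W * (1 / 8 * S₁)| ≤ δ) (hF₂ : |F₂ - B * (1 / 8 * S₂)| ≤ δ)
    (hWIN : F₁ - L / 2 * F₂ ≤ L * (G + 3 * P))
    (herr : δ * (1 + L / 2) + 3 * L * P ≤ c₀ / 8 * x ^ 2 / lg) : c₀ / 16 * x ^ 2 / lg ^ 2 ≤ G := by
  have hlg0 : 0 < lg := by linarith
  have h1 : L * B ≤ 3 / 5 * x ^ 2 := by
    calc L * B ≤ (15 / 4 * lg) * (4 / 25 * x ^ 2 / lg) :=
          mul_le_mul hL1 hB hB0 (by positivity)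
      _ = 3 / 5 * x ^ 2 := by field_simp; ring
  have h2 : L * B * S₂ ≤ W / 5 * S₂ := mul_le_mul_of_nonneg_right (by linarith) hS₂
  have hF1 := (abs_le.1 hF₁).1
  have hF2 := (abs_le.1 hF₂).2
  have h3 : L / 2 * F₂ ≤ L / 2 * (B * (1 / 8 * S₂) + δ) :=
    mul_le_mul_of_nonneg_left (by linarith) (by positivity)
  have h4 : 3 * x ^ 2 * (c₀ / lg) ≤ W * (S₁ - 1 / 10 * S₂) := by
    have h5 : 0 ≤ c₀ / lg := by positivity
    have h6 : 0 ≤ W := le_trans (by positivity) hW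
    calc 3 * x ^ 2 * (c₀ / lg) ≤ W * (c₀ / lg) := mul_le_mul_of_nonneg_right hW h5
      _ ≤ W * (S₁ - 1 / 10 * S₂) := mul_le_mul_of_nonneg_left hS h6
  have h7 : c₀ / 8 * x ^ 2 / lg = x ^ 2 * (c₀ / lg) / 8 := by ring
  have h8 : x ^ 2 * (c₀ / lg) / 4 ≤ L * G := by
    rw [h7] at herr
    nlinarith
  have hG : 0 ≤ G := by
    have : 0 ≤ x ^ 2 * (c₀ / lg) / 4 := by positivity
    by_contra hG
    push Not at hG
    have := mul_neg_of_pos_of_neg hL0 hG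
    linarith
  have h9 : L * G ≤ 4 * lg * G := mul_le_mul_of_nonneg_right (by linarith) hG
  have h10 : x ^ 2 * (c₀ / lg) / 4 ≤ 4 * lg * G := h8.trans h9
  have e : c₀ / 16 * x ^ 2 / lg ^ 2 = (x ^ 2 * (c₀ / lg) / 4) / (4 * lg) := by
    field_simp
    ring
  rw [e, div_le_iff₀ (by positivity)]
  linarith

private theorem FID_win (n : ℕ) : (3 : ℝ) * (n : ℝ) ^ 2 ≤ (#(Win n) : ℝ) := by
  have h : #(Win n) = (n + 1) ^ 3 - n ^ 3 := by rw [Win, Nat.card_Ioc]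
  have h2 : (n + 1) ^ 3 - n ^ 3 = 3 * n ^ 2 + 3 * n + 1 := by
    have : (n + 1) ^ 3 = n ^ 3 + (3 * n ^ 2 + 3 * n + 1) := by ring
    omega
  rw [h, h2]
  push_cast
  have : (0 : ℝ) ≤ n := Nat.cast_nonneg n
  linarith

theorem FID (bvw : BVW_stmt) (bqw : BQW_stmt) (cb : CB_stmt) (slv : SLV_stmt) (win : WIN_stmt)
    (exc : EXC_stmt) : FID_stmt := by
  classical
  obtain ⟨c₀, N₁, hc₀, hslv⟩ := slv
  obtain ⟨N₂, hwin⟩ := win
  obtain ⟨⟨r₁, hr₁⟩, ⟨r₂, hr₂⟩, hex1, hex2⟩ := exc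
  refine ⟨c₀ / 16, by positivity, fun A => ?_⟩
  obtain ⟨N₃, hbvw⟩ := bvw (1 / 125) (A + 5) (by norm_num) (by norm_num)
  obtain ⟨N₄, hbqw⟩ := bqw (1 / 125) (A + 5) (by norm_num) (by norm_num)
  obtain ⟨N₅, hcb⟩ := cb (A + 1)
  obtain ⟨N₆, hlarge⟩ := FID_large c₀ hc₀
  refine ⟨32768 + N₁ + N₂ + N₃ + N₄ + N₅ + N₆, fun N hN => ?_⟩
  have hPZ := FID_PZ N (by omega)
  obtain ⟨l₁, l₂, hl1, hlsup, hlow, hup, hS2, hS⟩ := hslv N (by omega)
  have hB1 := hbvw N (by omega) r₁ hr₁ l₁ (fun m => (hl1 m).1)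
  have hB2 := hbqw N (by omega) _ _ hPZ r₂ hr₂ l₂ (fun m => (hl1 m).2)
  have hC := hcb N (by omega) _ _ hPZ
  obtain ⟨g1, g2, g3, g4⟩ := hlarge N (by omega)
  have he : (1 : ℝ) - 1 / 125 = 124 / 125 := by norm_num
  rw [he] at hB1 hB2
  have hN0 : (0 : ℝ) < N := by exact_mod_cast (by omega : 0 < N)
  have hlg0 : 0 < Real.log N := by linarith
  set lg : ℝ := Real.log N with hlg
  set T : ℝ := (N : ℝ) ^ 2 / lg ^ 4 with hT
  have hT0 : 0 < T := by positivity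
  have hX : (N : ℝ) ^ 3 / lg ^ (A + 5) / T = N / lg ^ (A + 1) := by
    rw [hT]
    have e : lg ^ (A + 5) = lg ^ (A + 1) * lg ^ 4 := by rw [← pow_add]
    rw [e]
    field_simp
  have hM1 := FID_markov _ _ T _ hT0 (fun n _ => abs_nonneg _) hB1
  have hM2 := FID_markov _ _ T _ hT0 (fun n _ => abs_nonneg _) hB2
  rw [hX] at hM1 hM2
  have hsub : ((Ico N (2 * N)).filter fun n : ℕ =>
      (#(GP n) : ℝ) < c₀ / 16 * (n : ℝ) ^ 2 / Real.log n ^ 2) ⊆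
      ((Ico N (2 * N)).filter fun n : ℕ =>
        4 / 25 * (n : ℝ) ^ 2 / lg < (#(BN N (zS N) (yS N) ∩ Win n) : ℝ)) ∪
      (((Ico N (2 * N)).filter fun n : ℕ => T < |∑ m ∈ Mo ((N : ℝ) ^ (124 / 125 : ℝ)), l₁ m *
        (∑ j ∈ Win n with j ≡ r₁ m [MOD 30 * m], vonMangoldt j -
          (#(Win n) : ℝ) / (Nat.totient (30 * m) : ℝ))|) ∪
      ((Ico N (2 * N)).filter fun n : ℕ => T < |∑ m ∈ Mo ((N : ℝ) ^ (124 / 125 : ℝ)), l₂ m *
        ((#((BN N (zS N) (yS N) ∩ Win n).filter fun b => b ≡ r₂ m [MOD 30 * m]) : ℝ) -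
          (#(BN N (zS N) (yS N) ∩ Win n) : ℝ) / (Nat.totient (30 * m) : ℝ))|)) := by
    intro n hn
    rw [mem_filter] at hn
    obtain ⟨hnI, hnG⟩ := hn
    rw [mem_union, mem_union, mem_filter, mem_filter, mem_filter]
    by_contra hcon
    push Not at hcon
    obtain ⟨k0, k1, k2⟩ := hcon
    replace k0 := k0 hnI
    replace k1 := k1 hnI
    replace k2 := k2 hnI
    obtain ⟨hn1, hn2⟩ := mem_Ico.1 hnI
    have hNn : (N : ℝ) ≤ n := by exact_mod_cast hn1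
    have hco : ∀ (l : ℕ → ℝ), (∀ m, l m ≠ 0 → (l₁ m ≠ 0 ∨ l₂ m ≠ 0)) → ∀ m, l m ≠ 0 →
        Nat.Coprime m 30 ∧ (m : ℝ) ≤ (N : ℝ) ^ (124 / 125 : ℝ) :=
      fun l hl m hm => (hlsup m (hl m hm)).2
    have hc1 := hco l₁ fun m hm => Or.inl hm
    have hc2 := hco l₂ fun m hm => Or.inr hm
    have hw := hwin N (by omega) l₁ l₂ hlow hup n hnI
    rw [hex1 l₁ _ r₁ (Win n) hr₁ hc1, hex2 l₂ _ r₂ (BN N (zS N) (yS N) ∩ Win n) hr₂ (by
      intro b hb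
      have hb2 := (mem_inter.1 hb).2
      rw [Win, mem_Ioc] at hb2
      have : 32768 ≤ n := by omega
      have : n ≤ n ^ 3 := Nat.le_self_pow (by norm_num) n
      omega) hc2] at hw
    have q1 : ∀ (l : ℕ → ℝ) (g : ℕ → ℝ) (w : ℝ), (∀ m, l m ≠ 0 → Nat.Coprime m 30) →
        ∑ m ∈ Mo ((N : ℝ) ^ (124 / 125 : ℝ)), l m * (g m - w / (Nat.totient (30 * m) : ℝ)) =
          ∑ m ∈ Mo ((N : ℝ) ^ (124 / 125 : ℝ)), l m * g m -
            w * (1 / 8 * ∑ m ∈ Icc 1 ⌊(N : ℝ) ^ (124 / 125 : ℝ)⌋₊, l m / (Nat.totient m : ℝ)) := by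
      intro l g w hl
      rw [← FID_tot l _ hl, mul_sum, ← sum_sub_distrib]
      refine sum_congr rfl fun m _ => ?_
      ring
    rw [q1 l₁ _ _ fun m hm => (hc1 m hm).1] at k1
    rw [q1 l₂ _ _ fun m hm => (hc2 m hm).1] at k2
    have hL : Real.log (8 * (N : ℝ) ^ 3) = Real.log 8 + 3 * lg := by
      rw [Real.log_mul (by norm_num) (by positivity), Real.log_pow]
      push_cast
      rfl
    have hlog8 : 0 < Real.log 8 := Real.log_pos (by norm_num)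
    have hfin := FID_core (x := (n : ℝ)) hc₀ g1 (by rw [hL]; linarith)
      (by rw [hL]; linarith) (FID_win n) k0 (Nat.cast_nonneg _) hS2 hS k1 k2 hw ?_
    · -- contradiction
      have h11 : lg ≤ Real.log n := Real.log_le_log hN0 hNn
      have h12 : c₀ / 16 * (n : ℝ) ^ 2 / Real.log n ^ 2 ≤ c₀ / 16 * (n : ℝ) ^ 2 / lg ^ 2 :=
        div_le_div_of_nonneg_left (by positivity) (by positivity)
          (pow_le_pow_left₀ hlg0.le h11 2)
      linarith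
    · -- the error
      have hL4 : Real.log (8 * (N : ℝ) ^ 3) ≤ 4 * lg := by rw [hL]; linarith
      have hxx : c₀ / 8 * (N : ℝ) ^ 2 / lg ≤ c₀ / 8 * (n : ℝ) ^ 2 / lg := by
        gcongr
      refine le_trans ?_ hxx
      have e1 : T * (1 + Real.log (8 * (N : ℝ) ^ 3) / 2) ≤ c₀ / 16 * (N : ℝ) ^ 2 / lg := by
        calc T * (1 + Real.log (8 * (N : ℝ) ^ 3) / 2) ≤ T * (3 * lg) := by
              gcongr
              linarith
          _ = 3 / lg ^ 2 * ((N : ℝ) ^ 2 / lg) := by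
              rw [hT]
              field_simp
          _ ≤ c₀ / 16 * ((N : ℝ) ^ 2 / lg) := by
              refine mul_le_mul_of_nonneg_right ?_ (by positivity)
              rw [div_le_iff₀ (by positivity)]
              rw [div_le_iff₀ hc₀] at g3
              linarith
          _ = c₀ / 16 * (N : ℝ) ^ 2 / lg := by ring
      have e2 : 3 * Real.log (8 * (N : ℝ) ^ 3) * (N : ℝ) ^ (15 / 8 : ℝ) ≤
          c₀ / 16 * (N : ℝ) ^ 2 / lg := by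
        rw [le_div_iff₀ hlg0]
        calc 3 * Real.log (8 * (N : ℝ) ^ 3) * (N : ℝ) ^ (15 / 8 : ℝ) * lg
            ≤ 3 * (4 * lg) * (N : ℝ) ^ (15 / 8 : ℝ) * lg := by gcongr
          _ = 12 * (lg ^ 2) * (N : ℝ) ^ (15 / 8 : ℝ) := by ring
          _ ≤ 12 * (c₀ / 192 * (N : ℝ) ^ (1 / 8 : ℝ)) * (N : ℝ) ^ (15 / 8 : ℝ) := by gcongr
          _ = c₀ / 16 * ((N : ℝ) ^ (1 / 8 : ℝ) * (N : ℝ) ^ (15 / 8 : ℝ)) := by ring
          _ = c₀ / 16 * (N : ℝ) ^ 2 := by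
              rw [← Real.rpow_add hN0, ← Real.rpow_natCast]
              norm_num
      have e3 : c₀ / 16 * (N : ℝ) ^ 2 / lg + c₀ / 16 * (N : ℝ) ^ 2 / lg =
          c₀ / 8 * (N : ℝ) ^ 2 / lg := by ring
      linarith
  have hcard := (card_le_card hsub).trans ((card_union_le _ _).trans
    (Nat.add_le_add_left (card_union_le _ _) _))
  have hcard' : (#((Ico N (2 * N)).filter fun n : ℕ =>
      (#(GP n) : ℝ) < c₀ / 16 * (n : ℝ) ^ 2 / Real.log n ^ 2) : ℝ) ≤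
      N / lg ^ (A + 1) + (N / lg ^ (A + 1) + N / lg ^ (A + 1)) := by
    refine (Nat.cast_le (α := ℝ).2 hcard).trans ?_
    rw [Nat.cast_add, Nat.cast_add]
    exact add_le_add hC (add_le_add hM1 hM2)
  refine le_trans ?_ (hcard'.trans ?_)
  · exact le_of_eq (by congr)
  · have e : (N : ℝ) / lg ^ (A + 1) + (N / lg ^ (A + 1) + N / lg ^ (A + 1)) =
        (N / lg ^ A) * (3 / lg) := by
      rw [pow_succ]
      field_simp
      ring
    rw [e]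
    exact mul_le_of_le_one_right (by positivity) (by rw [div_le_one hlg0]; exact g1)

end Pool.Agent.CH
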