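import Pool.Agent.helper17.CH.SpecB
import Pool.Agent.helper20.GD.BV1

set_option autoImplicit false

namespace Pool.Agent.CH

open Finset ArithmeticFunction
open GD (kp ks)

private theorem PTN_cc_abs (N : ℕ) (c : ℕ → ℝ) (hc : ∀ n, |c n| ≤ 1) (j : ℕ) :
    |cc N c j| ≤ 1 := by
  unfold cc
  by_cases h : ∃ n ∈ Ico N (2 * N), j ∈ Win n
  · obtain ⟨n₀, h0, h1⟩ := h
    rw [sum_eq_single_of_mem n₀ h0, if_pos h1]
    · exact hc n₀
    · intro n _ hne
      rw [if_neg]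
      intro h2
      rw [Win, mem_Ioc] at h1 h2
      rcases lt_or_gt_of_ne hne with h3 | h3
      · have : (n + 1) ^ 3 ≤ n₀ ^ 3 := Nat.pow_le_pow_left h3 3
        omega
      · have : (n₀ + 1) ^ 3 ≤ n ^ 3 := Nat.pow_le_pow_left h3 3
        omega
  · push Not at h
    rw [sum_eq_zero]
    · simp
    · intro n hn
      rw [if_neg (h n hn)]

private theorem PTN_cc_eq (N : ℕ) (c : ℕ → ℝ) (x y : ℕ) (hxy : x ≤ y)
    (h : ∀ n ∈ Icc N (2 * N), ¬ (x ≤ n ^ 3 ∧ n ^ 3 < y)) : cc N c x = cc N c y := by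
  unfold cc
  refine sum_congr rfl fun n hn => ?_
  rw [mem_Ico] at hn
  have h1 := h n (mem_Icc.2 ⟨hn.1, hn.2.le⟩)
  have h2 := h (n + 1) (mem_Icc.2 ⟨by omega, by omega⟩)
  have h3 : (x ∈ Win n) ↔ (y ∈ Win n) := by
    rw [Win, mem_Ioc, mem_Ioc]
    generalize n ^ 3 = s at *
    generalize (n + 1) ^ 3 = t at *
    omega
  simp only [h3]

private theorem PTN_err (N : ℕ) (c : ℕ → ℝ) (hc : ∀ n, |c n| ≤ 1) (a b v ρ : ℕ) (hρ : 1 ≤ ρ)
    (hav : a ≤ v) (hv : (v - a) * ρ ≤ v) :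
    |cc N c (a * b) - cc N c (v * b)| ≤ 2 * (if ∃ n ∈ Icc N (2 * N),
      n ^ 3 * (ρ - 1) ≤ a * b * ρ ∧ a * b ≤ n ^ 3 then 1 else 0) := by
  by_cases h : ∃ n ∈ Icc N (2 * N), n ^ 3 * (ρ - 1) ≤ a * b * ρ ∧ a * b ≤ n ^ 3
  · rw [if_pos h]
    have h1 := PTN_cc_abs N c hc (a * b)
    have h2 := PTN_cc_abs N c hc (v * b)
    have h3 := abs_sub (cc N c (a * b)) (cc N c (v * b))
    linarith
  · rw [if_neg h]
    have h1 : cc N c (a * b) = cc N c (v * b) := by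
      refine PTN_cc_eq N c _ _ (Nat.mul_le_mul_right b hav) ?_
      rintro n hn ⟨h2, h3⟩
      refine h ⟨n, hn, ?_, h2⟩
      obtain ⟨s, rfl⟩ : ∃ s, ρ = s + 1 := ⟨ρ - 1, by omega⟩
      obtain ⟨d, rfl⟩ : ∃ d, v = a + d := ⟨v - a, by omega⟩
      have h4 : d * s ≤ a := by
        have e : a + d - a = d := by omega
        rw [e] at hv
        have e2 : d * (s + 1) = d * s + d := by ring
        omega
      have e3 : s + 1 - 1 = s := by omega
      rw [e3]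
      calc n ^ 3 * s ≤ (a + d) * b * s := Nat.mul_le_mul_right s h3.le
        _ = (a * s + d * s) * b := by ring
        _ ≤ (a * s + a) * b := Nat.mul_le_mul_right b (by omega)
        _ = a * b * (s + 1) := by ring
    rw [h1]
    simp

private theorem PTN_part (u : ℕ → ℕ) (hu : Monotone u) (f : ℕ → ℝ) (J : ℕ) :
    ∑ i ∈ range J, ∑ a ∈ Ioc (u i) (u (i + 1)), f a = ∑ a ∈ Ioc (u 0) (u J), f a := by
  induction J with
  | zero => simp
  | succ J ih =>
    rw [sum_range_succ, ih, sum_Ioc_consecutive f (hu (Nat.zero_le J)) (hu (Nat.le_succ J))]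

private theorem PTN_mod (Q : ℝ) (F : ℕ → ℝ) (hF : ∀ m, 0 ≤ F m) :
    ∑ m ∈ Mo Q, F (30 * m) ≤ ∑ m ∈ Icc 1 (30 * ⌊Q⌋₊), F m := by
  have h1 : ∑ m ∈ Mo Q, F (30 * m) = ∑ m ∈ (Mo Q).image (fun m => 30 * m), F m := by
    rw [sum_image]
    intro x _ y _ h
    have h2 : 30 * x = 30 * y := h
    omega
  rw [h1]
  refine sum_le_sum_of_subset_of_nonneg ?_ fun m _ _ => hF m
  intro m hm
  rw [mem_image] at hm
  obtain ⟨m', hm', rfl⟩ := hm
  rw [Mo, mem_filter, mem_Icc] at hm'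
  rw [mem_Icc]
  omega

theorem PTN : PTN_stmt := by
  obtain ⟨C₁, hC₁, hBV⟩ := GD.BV1
  refine ⟨12 + 5 * C₁, by positivity, ?_⟩
  intro N c Q R ρ r α β M₁ M₂ K₁ K₂ hN hc hQ hR hρ hM1 hM12 hM2 hK
  obtain ⟨h, hh1, hhρ, hJb⟩ : ∃ h : ℕ, 1 ≤ h ∧ (h - 1) * ρ ≤ M₁ ∧ (M₂ - M₁) / h + 1 ≤ 3 * ρ := by
    rcases Nat.lt_or_ge M₁ ρ with h1 | h1
    · refine ⟨1, le_rfl, by simp, ?_⟩
      rw [Nat.div_one]
      omega
    · have h2 : 1 ≤ M₁ / ρ := (Nat.one_le_div_iff (by omega)).2 h1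
      refine ⟨M₁ / ρ, h2, ?_, ?_⟩
      · exact (Nat.mul_le_mul_right ρ (Nat.sub_le _ _)).trans (Nat.div_mul_le_self M₁ ρ)
      · have h3 : M₁ < (M₁ / ρ + 1) * ρ := by
          rw [Nat.add_mul, one_mul, mul_comm]
          exact Nat.lt_mul_div_succ M₁ (by omega)
        have h4 : (M₂ - M₁) / (M₁ / ρ) < 2 * ρ := by
          rw [Nat.div_lt_iff_lt_mul h2]
          have h5 : (M₁ / ρ + 1) * ρ ≤ 2 * ρ * (M₁ / ρ) := by nlinarith
          omega
        omega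
  obtain ⟨J, hJ⟩ : ∃ J, J = (M₂ - M₁) / h + 1 := ⟨_, rfl⟩
  rw [← hJ] at hJb
  have hJM : M₂ ≤ M₁ + J * h := by
    have h1 : M₂ - M₁ < h * ((M₂ - M₁) / h + 1) := Nat.lt_mul_div_succ _ (by omega)
    rw [← hJ, mul_comm] at h1
    omega
  set u : ℕ → ℕ := fun i => min M₂ (M₁ + i * h) with hu
  have hu0 : u 0 = M₁ := by simp [hu, hM12]
  have huJ : u J = M₂ := by simp [hu, hJM]
  have hmono : Monotone u := by
    intro i j hij
    simp only [hu]
    have : i * h ≤ j * h := Nat.mul_le_mul_right h hij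
    omega
  have hstep : ∀ i, u (i + 1) ≤ u i + h := by
    intro i
    simp only [hu]
    have : (i + 1) * h = i * h + h := by ring
    omega
  have hpart : ∀ f : ℕ → ℝ, ∑ a ∈ Ioc M₁ M₂, f a =
      ∑ i ∈ range J, ∑ a ∈ Ioc (u i) (u (i + 1)), f a := by
    intro f
    rw [PTN_part u hmono f J, hu0, huJ]
  set ind : ℕ → ℕ → ℝ := fun a b => (if ∃ n ∈ Icc N (2 * N),
      n ^ 3 * (ρ - 1) ≤ a * b * ρ ∧ a * b ≤ n ^ 3 then 1 else 0) with hind
  -- one modulus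
  have hE : ∀ m, |∑ a ∈ Ioc M₁ M₂, ∑ b ∈ Ioc K₁ K₂,
      α a * β b * (cc N c (a * b) * kp R (30 * m) (r m) (a * b))| ≤
      ∑ i ∈ range J, |∑ a ∈ Ioc (u i) (u (i + 1)), ∑ b ∈ Ioc K₁ K₂,
        α a * (β b * cc N c (u (i + 1) * b)) * kp R (30 * m) (r m) (a * b)| +
      ∑ a ∈ Ioc M₁ M₂, ∑ b ∈ Ioc K₁ K₂, |α a| * |β b| *
        ((2 * ind a b) * |kp R (30 * m) (r m) (a * b)|) := by
    intro m
    rw [hpart, hpart, ← sum_add_distrib]
    refine (abs_sum_le_sum_abs _ _).trans (sum_le_sum fun i _ => ?_)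
    have e1 : ∑ a ∈ Ioc (u i) (u (i + 1)), ∑ b ∈ Ioc K₁ K₂,
        α a * β b * (cc N c (a * b) * kp R (30 * m) (r m) (a * b)) =
        ∑ a ∈ Ioc (u i) (u (i + 1)), ∑ b ∈ Ioc K₁ K₂,
          α a * (β b * cc N c (u (i + 1) * b)) * kp R (30 * m) (r m) (a * b) +
        ∑ a ∈ Ioc (u i) (u (i + 1)), ∑ b ∈ Ioc K₁ K₂,
          α a * β b * ((cc N c (a * b) - cc N c (u (i + 1) * b)) *
            kp R (30 * m) (r m) (a * b)) := by
      rw [← sum_add_distrib]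
      refine sum_congr rfl fun a _ => ?_
      rw [← sum_add_distrib]
      refine sum_congr rfl fun b _ => ?_
      ring
    rw [e1]
    refine (abs_add_le _ _).trans (add_le_add le_rfl ?_)
    refine (abs_sum_le_sum_abs _ _).trans (sum_le_sum fun a ha => ?_)
    refine (abs_sum_le_sum_abs _ _).trans (sum_le_sum fun b _ => ?_)
    rw [abs_mul, abs_mul, abs_mul]
    rw [mem_Ioc] at ha
    have hui : M₁ ≤ u i := by rw [← hu0]; exact hmono (Nat.zero_le i)
    have h1 := PTN_err N c hc a b (u (i + 1)) ρ (by omega) ha.2 (by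
      have h2 : u (i + 1) - a ≤ h - 1 := by
        have := hstep i
        omega
      exact (Nat.mul_le_mul_right ρ h2).trans (hhρ.trans (by omega)))
    exact mul_le_mul_of_nonneg_left (mul_le_mul_of_nonneg_right h1 (abs_nonneg _))
      (by positivity)
  refine (sum_le_sum fun m _ => hE m).trans ?_
  rw [sum_add_distrib]
  refine add_le_add ?_ (le_of_eq ?_)
  · -- the main term
    rw [sum_comm]
    have hR0 : (0 : ℝ) < R := by exact_mod_cast hR
    have hQ1 : 1 ≤ ⌊Q⌋₊ := (Nat.one_le_floor_iff Q).2 hQ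
    set A : ℕ → ℝ := fun i => ∑ a ∈ Ioc (u i) (u (i + 1)), α a ^ 2 with hA
    set Bs : ℝ := ∑ b ∈ Ioc K₁ K₂, β b ^ 2 with hBs
    set X : ℕ → ℝ := fun i => ((u (i + 1) - u i : ℕ) : ℝ) + 4 * R ^ 2 with hX
    set Y : ℝ := ((K₂ - K₁ : ℕ) : ℝ) + 4 * R ^ 2 with hY
    have hA0 : ∀ i, 0 ≤ A i := fun i => sum_nonneg fun _ _ => sq_nonneg _
    have hBs0 : 0 ≤ Bs := sum_nonneg fun _ _ => sq_nonneg _
    have hX0 : ∀ i, 0 ≤ X i := fun i => by simp only [hX]; positivity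
    have hY0 : 0 ≤ Y := by rw [hY]; positivity
    have hlogQ : 0 ≤ Real.log Q := Real.log_nonneg hQ
    have hlog' : 1 + Real.log ((30 * ⌊Q⌋₊ : ℕ) : ℝ) ≤ 5 * (1 + Real.log Q) := by
      have h1 : Real.log ((30 * ⌊Q⌋₊ : ℕ) : ℝ) ≤ Real.log (30 * Q) := by
        refine Real.log_le_log (by exact_mod_cast (by omega : 0 < 30 * ⌊Q⌋₊)) ?_
        push_cast
        have := Nat.floor_le (show (0 : ℝ) ≤ Q by linarith)
        linarith
      rw [Real.log_mul (by norm_num) (by linarith)] at h1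
      have h2 : Real.log 30 ≤ 4 := by
        rw [Real.log_le_iff_le_exp (by norm_num)]
        have h3 : (2.7 : ℝ) ≤ Real.exp 1 := by
          have := Real.exp_one_gt_d9
          linarith
        have h4 : Real.exp 4 = Real.exp 1 ^ 4 := by
          rw [← Real.exp_nat_mul]
          norm_num
        rw [h4]
        calc (30 : ℝ) ≤ 2.7 ^ 4 := by norm_num
          _ ≤ Real.exp 1 ^ 4 := pow_le_pow_left₀ (by norm_num) h3 4
      linarith
    have hlog0 : 0 ≤ Real.log ((30 * ⌊Q⌋₊ : ℕ) : ℝ) := Real.log_natCast_nonneg _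
    have hi : ∀ i ∈ range J, ∑ m ∈ Mo Q, |∑ a ∈ Ioc (u i) (u (i + 1)), ∑ b ∈ Ioc K₁ K₂,
        α a * (β b * cc N c (u (i + 1) * b)) * kp R (30 * m) (r m) (a * b)| ≤
        (5 * C₁ * (1 + Real.log Q) / R * √(Y * Bs)) * (√(X i) * √(A i)) := by
      intro i _
      have h1 := PTN_mod Q (fun m => |∑ a ∈ Ioc (u i) (u (i + 1)), ∑ b ∈ Ioc K₁ K₂,
        α a * (β b * cc N c (u (i + 1) * b)) * kp R m (r (m / 30)) (a * b)|)
        (fun _ => abs_nonneg _)
      simp only [Nat.mul_div_cancel_left _ (show 0 < 30 by norm_num)] at h1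
      refine h1.trans ?_
      have h2 := hBV (30 * ⌊Q⌋₊) R (fun m => r (m / 30)) α
        (fun b => β b * cc N c (u (i + 1) * b)) (u i) (u (i + 1)) K₁ K₂ (by omega) hR
        (hmono (Nat.le_succ i)) hK
      refine h2.trans ?_
      have h3 : ∑ b ∈ Ioc K₁ K₂, (β b * cc N c (u (i + 1) * b)) ^ 2 ≤ Bs := by
        refine sum_le_sum fun b _ => ?_
        rw [mul_pow]
        refine mul_le_of_le_one_right (sq_nonneg _) ?_
        rw [sq_le_one_iff_abs_le_one]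
        exact PTN_cc_abs N c hc _
      have h4 : √(X i * Y * A i * ∑ b ∈ Ioc K₁ K₂, (β b * cc N c (u (i + 1) * b)) ^ 2) ≤
          √(Y * Bs) * (√(X i) * √(A i)) := by
        rw [← Real.sqrt_mul (hX0 i), ← Real.sqrt_mul (by positivity)]
        refine Real.sqrt_le_sqrt ?_
        calc _ ≤ X i * Y * A i * Bs :=
              mul_le_mul_of_nonneg_left h3 (mul_nonneg (mul_nonneg (hX0 i) hY0) (hA0 i))
          _ = _ := by ring
      calc C₁ * (1 + Real.log ((30 * ⌊Q⌋₊ : ℕ) : ℝ)) / R *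
            √(X i * Y * A i * ∑ b ∈ Ioc K₁ K₂, (β b * cc N c (u (i + 1) * b)) ^ 2)
          ≤ C₁ * (5 * (1 + Real.log Q)) / R * (√(Y * Bs) * (√(X i) * √(A i))) := by
            refine mul_le_mul ?_ h4 (Real.sqrt_nonneg _) (by positivity)
            exact div_le_div_of_nonneg_right (mul_le_mul_of_nonneg_left hlog' hC₁.le) hR0.le
        _ = _ := by ring
    refine (sum_le_sum hi).trans ?_
    rw [← mul_sum]
    have hCS := Real.sum_sqrt_mul_sqrt_le (range J) hX0 hA0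
    have hSX : ∑ i ∈ range J, X i ≤ ((M₂ - M₁ : ℕ) : ℝ) + (12 + 5 * C₁) * ρ * R ^ 2 := by
      have h1 : ∑ i ∈ range J, ((u (i + 1) - u i : ℕ) : ℝ) = ((M₂ - M₁ : ℕ) : ℝ) := by
        have h2 := hpart (fun _ => 1)
        simp only [sum_const, Nat.card_Ioc, nsmul_eq_mul, mul_one] at h2
        exact h2.symm
      simp only [hX]
      rw [sum_add_distrib, h1, sum_const, card_range, nsmul_eq_mul]
      have h3 : (J : ℝ) ≤ 3 * ρ := by exact_mod_cast hJb
      have h4 : (J : ℝ) * (4 * R ^ 2) ≤ 3 * ρ * (4 * R ^ 2) :=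
        mul_le_mul_of_nonneg_right h3 (by positivity)
      have h5 : 0 ≤ 5 * C₁ * ρ * (R : ℝ) ^ 2 := by positivity
      linarith
    have hSA : ∑ i ∈ range J, A i = ∑ a ∈ Ioc M₁ M₂, α a ^ 2 := (hpart _).symm
    have hYC : Y ≤ ((K₂ - K₁ : ℕ) : ℝ) + (12 + 5 * C₁) * R ^ 2 := by
      rw [hY]
      have h5 : 0 ≤ 5 * C₁ * (R : ℝ) ^ 2 := by positivity
      have h6 : 0 ≤ (R : ℝ) ^ 2 := by positivity
      linarith
    calc 5 * C₁ * (1 + Real.log Q) / R * √(Y * Bs) * ∑ i ∈ range J, √(X i) * √(A i)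
        ≤ 5 * C₁ * (1 + Real.log Q) / R * √(Y * Bs) *
            (√(∑ i ∈ range J, X i) * √(∑ i ∈ range J, A i)) :=
          mul_le_mul_of_nonneg_left hCS (by positivity)
      _ = 5 * C₁ * (1 + Real.log Q) / R *
            √((∑ i ∈ range J, X i) * Y * (∑ i ∈ range J, A i) * Bs) := by
          have h7 : 0 ≤ ∑ i ∈ range J, X i := sum_nonneg fun i _ => hX0 i
          rw [mul_assoc, ← Real.sqrt_mul h7, ← Real.sqrt_mul (by positivity)]
          congr 2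
          ring
      _ ≤ (12 + 5 * C₁) * (1 + Real.log Q) / R *
            √((((M₂ - M₁ : ℕ) : ℝ) + (12 + 5 * C₁) * ρ * R ^ 2) *
              (((K₂ - K₁ : ℕ) : ℝ) + (12 + 5 * C₁) * R ^ 2) *
              (∑ a ∈ Ioc M₁ M₂, α a ^ 2) * Bs) := by
          refine mul_le_mul ?_ (Real.sqrt_le_sqrt ?_) (Real.sqrt_nonneg _) (by positivity)
          · refine div_le_div_of_nonneg_right ?_ hR0.le
            exact mul_le_mul_of_nonneg_right (by linarith) (by linarith)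
          · rw [hSA]
            have h8 : 0 ≤ ∑ a ∈ Ioc M₁ M₂, α a ^ 2 := sum_nonneg fun _ _ => sq_nonneg _
            refine mul_le_mul_of_nonneg_right (mul_le_mul_of_nonneg_right ?_ h8) hBs0
            exact mul_le_mul hSX hYC hY0 (by positivity)
  · -- the error term
    rw [sum_comm, mul_sum]
    refine sum_congr rfl fun a _ => ?_
    rw [sum_comm, mul_sum]
    refine sum_congr rfl fun b _ => ?_
    rw [mul_sum, mul_sum, mul_sum]
    refine sum_congr rfl fun m _ => ?_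
    simp only [hind]
    ring

end Pool.Agent.CH
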